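import Mathlib
import Pool.Agent.H.MP_0e2194_an.Par

set_option autoImplicit false
open MeasureTheory Set Filter Topology

namespace Pool.Agent.H.Flex

theorem M_det (a b d : ℝ) : (M a b d).det = a * d := by
  rw [ContinuousLinearMap.det, ← LinearMap.det_toMatrix (Module.Basis.finTwoProd ℝ),
    Matrix.det_fin_two]
  simp [LinearMap.toMatrix_apply, M_apply]

theorem M_up (a b d : ℝ) : ‖M a b d‖ ≤ |a| + |b| + |d| := by
  refine ContinuousLinearMap.opNorm_le_bound _ (by positivity) fun v => ?_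
  have h0 : |v.1| ≤ ‖v‖ := norm_fst_le v
  have h1 : |v.2| ≤ ‖v‖ := norm_snd_le v
  have := abs_nonneg a
  have := abs_nonneg b
  have := abs_nonneg d
  have := norm_nonneg v
  rw [M_apply, Prod.norm_def, max_le_iff]
  simp only [Real.norm_eq_abs]
  constructor
  · rw [abs_mul]; nlinarith
  · refine (abs_add_le _ _).trans ?_
    rw [abs_mul, abs_mul]; nlinarith

theorem M_low (a b d : ℝ) : a ≤ ‖M a b d‖ := by
  have h1 := (M a b d).le_opNorm (1, 0)
  have h2 := norm_fst_le (M a b d (1, 0))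
  rw [M_apply] at h1 h2
  simp only [mul_one, Real.norm_eq_abs, Prod.norm_def, norm_one, norm_zero, zero_le_one,
    max_eq_left] at h1 h2
  exact (le_abs_self a).trans (h2.trans h1)

theorem M_sub (a b d b' d' : ℝ) : M a b d - M a b' d' = M 0 (b - b') (d - d') := by
  refine ContinuousLinearMap.ext fun v => ?_
  simp only [ContinuousLinearMap.sub_apply, M_apply]
  ext <;> simp <;> ring

noncomputable def cn (A : ℝ × ℝ →L[ℝ] ℝ × ℝ) : ℝ := ⨅ v : {v : ℝ × ℝ // ‖v‖ = 1}, ‖A v‖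

theorem cn_up {a d : ℝ} (b : ℝ) (hd : 0 < d) : cn (M a b d) ≤ d := by
  have h := ciInf_le (f := fun v : {v : ℝ × ℝ // ‖v‖ = 1} => ‖M a b d v‖)
    ⟨0, by rintro _ ⟨v, rfl⟩; exact norm_nonneg _⟩ ⟨(0, 1), by simp [Prod.norm_def]⟩
  refine h.trans ?_
  simp [M_apply, Prod.norm_def, abs_of_pos hd, hd.le]

theorem cn_low {a d : ℝ} (b : ℝ) (ha : 0 < a) (hd : 0 < d) :
    a * d / (a + |b| + d) ≤ cn (M a b d) := by
  haveI : Nonempty {v : ℝ × ℝ // ‖v‖ = 1} := ⟨⟨(0, 1), by simp [Prod.norm_def]⟩⟩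
  refine le_ciInf fun v => ?_
  have h1 : M d (-b) a (M a b d v) = (a * d) • (v : ℝ × ℝ) := by
    simp only [M_apply]; ext <;> simp <;> ring
  have h2 := (M d (-b) a).le_opNorm (M a b d v)
  rw [h1, norm_smul, v.2, mul_one, Real.norm_eq_abs, abs_of_pos (mul_pos ha hd)] at h2
  have h3 := M_up d (-b) a
  rw [abs_of_pos hd, abs_of_pos ha, abs_neg] at h3
  rw [div_le_iff₀ (by positivity)]
  nlinarith [norm_nonneg (M a b d v)]

theorem exps {F : ℝ × ℝ → ℝ × ℝ} {a b d : ℝ × ℝ → ℝ}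
    (hD : ∀ z, HasFDerivAt F (M (a z) (b z) (d z)) z) (ha : ∀ z, 0 < a z) (hd : ∀ z, 0 < d z)
    {K : ℝ} (hb : ∀ z, |b z| ≤ K) {f : T × T → T × T} (hl : ∀ z, f (π z) = π (F z))
    {la ld : T × T → ℝ} (ia : Integrable la) (id : Integrable ld)
    (ea : ∀ z, la (π z) = Real.log (a z)) (ed : ∀ z, ld (π z) = Real.log (d z))
    (he1 : Ergodic f volume) (hle : ∫ z, ld z ≤ ∫ z, la z) : ∀ᵐ z : ℝ × ℝ,
      Tendsto (fun n : ℕ => (1 / (n : ℝ)) * Real.log ‖fderiv ℝ F^[n] z‖) atTop (𝓝 (∫ z, la z)) ∧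
      Tendsto (fun n : ℕ => (1 / (n : ℝ)) * Real.log (cn (fderiv ℝ F^[n] z))) atTop
        (𝓝 (∫ z, ld z)) := by
  have hln : ∀ n z, f^[n] (π z) = π (F^[n] z) := by
    intro n z
    induction n with
    | zero => rfl
    | succ n ih => rw [Function.iterate_succ_apply', Function.iterate_succ_apply', ih, hl]
  have q1 : Measure.QuasiMeasurePreserving π volume volume :=
    MeasureTheory.QuasiMeasurePreserving.prodMap qmp_coe qmp_coe
  filter_upwards [q1.ae (birk he1 ia), q1.ae (birk he1 id)] with z ta td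
  simp only [hln, ea, ed] at ta td
  let A : ℕ → ℝ := fun n => ∏ k ∈ Finset.range n, a (F^[k] z)
  let D : ℕ → ℝ := fun n => ∏ k ∈ Finset.range n, d (F^[k] z)
  let Bn : ℕ → ℝ := fun n => Nat.rec 0 (fun n x => b (F^[n] z) * A n + d (F^[n] z) * x) n
  have hA : ∀ n, 0 < A n := fun n => Finset.prod_pos fun _ _ => ha _
  have hD0 : ∀ n, 0 < D n := fun n => Finset.prod_pos fun _ _ => hd _
  have hder : ∀ n, HasFDerivAt F^[n] (M (A n) (Bn n) (D n)) z := by
    intro n
    induction n with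
    | zero => simpa [A, D, Bn, M_one] using hasFDerivAt_id z
    | succ n ih =>
      rw [Function.iterate_succ']
      have := (hD (F^[n] z)).comp z ih
      rw [M_comp] at this
      have e1 : A (n + 1) = a (F^[n] z) * A n := by simp [A, Finset.prod_range_succ, mul_comm]
      have e2 : D (n + 1) = d (F^[n] z) * D n := by simp [D, Finset.prod_range_succ, mul_comm]
      rw [e1, e2]
      exact this
  have ta' : Tendsto (fun n : ℕ => (1 / (n : ℝ)) * Real.log (A n)) atTop (𝓝 (∫ z, la z)) := by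
    simp only [A, Real.log_prod fun _ _ => (ha _).ne']; exact ta
  have td' : Tendsto (fun n : ℕ => (1 / (n : ℝ)) * Real.log (D n)) atTop (𝓝 (∫ z, ld z)) := by
    simp only [D, Real.log_prod fun _ _ => (hd _).ne']; exact td
  have tt : ∀ N : ℕ → ℝ, (∀ n, A n ≤ N n) → (∀ n, N n ≤ A n + |Bn n| + D n) →
      Tendsto (fun n : ℕ => (1 / (n : ℝ)) * Real.log (N n)) atTop (𝓝 (∫ z, la z)) :=
    fun N h1 h2 => top_exp (Bn := Bn) (b := fun n => b (F^[n] z))
      (d := fun n => d (F^[n] z)) hA hD0 (fun n => hb _) rfl (fun n => rfl)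
      (fun n => by simp [D, Finset.prod_range_succ, mul_comm]) ta' td' hle h1 h2
  simp only [fun n => (hder n).fderiv]
  refine ⟨tt _ (fun n => M_low _ _ _) fun n => ?_, ?_⟩
  · simpa only [abs_of_pos (hA n), abs_of_pos (hD0 n)] using M_up (A n) (Bn n) (D n)
  · have t1 := tt (fun n => A n + |Bn n| + D n)
      (fun n => by linarith [abs_nonneg (Bn n), hD0 n]) fun n => le_rfl
    have t2 := (ta'.add td').sub t1
    rw [add_sub_cancel_left] at t2
    refine tendsto_of_tendsto_of_tendsto_of_le_of_le t2 td' (fun n => ?_) fun n => ?_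
    · have a0 := hA n
      have d0 := hD0 n
      have h3 := Real.log_le_log (by positivity) (cn_low (Bn n) a0 d0)
      rw [Real.log_div (by positivity) (by positivity), Real.log_mul a0.ne' d0.ne'] at h3
      simp only [← mul_add, ← mul_sub]
      exact mul_le_mul_of_nonneg_left h3 (by positivity)
    · have a0 := hA n
      have d0 := hD0 n
      exact mul_le_mul_of_nonneg_left (Real.log_le_log
        (lt_of_lt_of_le (by positivity) (cn_low (Bn n) a0 d0)) (cn_up _ d0)) (by positivity)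

theorem dense_orbit {X : Type*} [TopologicalSpace X] [SecondCountableTopology X]
    [MeasurableSpace X] [OpensMeasurableSpace X] {μ : Measure X} [IsProbabilityMeasure μ]
    [μ.IsOpenPosMeasure] {f : X → X} (hf : Ergodic f μ) :
    ∃ x, Dense (range fun n : ℕ => f^[n] x) := by
  have key : ∀ U ∈ TopologicalSpace.countableBasis X, ∀ᵐ x ∂μ, ∃ n : ℕ, f^[n] x ∈ U := by
    intro U hU
    have ho := TopologicalSpace.isOpen_of_mem_countableBasis hU
    have hm : MeasurableSet (⋃ n : ℕ, f^[n] ⁻¹' U) :=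
      MeasurableSet.iUnion fun n => (hf.measurable.iterate n) ho.measurableSet
    rcases hf.ae_empty_or_univ_of_preimage_ae_le hm.nullMeasurableSet
      (HasSubset.Subset.eventuallyLE fun x hx => by
        obtain ⟨n, hn⟩ := mem_iUnion.1 hx
        exact mem_iUnion.2 ⟨n + 1, hn⟩) with h | h
    · exfalso
      refine ho.measure_ne_zero μ (TopologicalSpace.nonempty_of_mem_countableBasis hU) ?_
      exact measure_mono_null (subset_iUnion (fun n : ℕ => f^[n] ⁻¹' U) 0) (ae_eq_empty.1 h)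
    · filter_upwards [eventuallyEq_univ.1 h] with x hx
      exact mem_iUnion.1 hx
  obtain ⟨x, hx⟩ := ((ae_ball_iff (TopologicalSpace.countable_countableBasis X)).2 key).exists
  refine ⟨x, (TopologicalSpace.isBasis_countableBasis X).dense_iff.2 fun U hU _ => ?_⟩
  obtain ⟨n, hn⟩ := hx U hU
  exact ⟨_, hn, n, rfl⟩

theorem rep_id {t : ℝ} (ht : t ∈ Ico (0 : ℝ) 1) : rep (t : T) = t := by
  obtain ⟨k, hk⟩ := rep_coe t
  have h3 := rep_mem (t : T)
  rw [hk] at h3
  have h4 : (k : ℝ) < 1 := by linarith [h3.2, ht.1]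
  have h5 : (-1 : ℝ) < k := by linarith [h3.1, ht.2]
  have h6 : k = 0 := by
    have : k < 1 := by exact_mod_cast h4
    have : -1 < k := by exact_mod_cast h5
    omega
  simp [hk, h6]

namespace Sk0
variable (K : Sk0)

theorem exps' (he : Ergodic K.f volume) (hle : K.ent ≤ 2 * K.lam) : ∀ᵐ z : ℝ × ℝ,
      Tendsto (fun n : ℕ => (1 / (n : ℝ)) * Real.log ‖fderiv ℝ K.F^[n] z‖) atTop (𝓝 K.lam) ∧
      Tendsto (fun n : ℕ => (1 / (n : ℝ)) * Real.log (cn (fderiv ℝ K.F^[n] z))) atTop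
        (𝓝 (K.ent - K.lam)) := by
  have c1 : Continuous fun z : ℝ × ℝ => -(deriv K.τ z.1 * K.q z.2) / (K.p z.1 * K.j z.1 z.2) := by
    have := K.cdτ; have := K.cq; have := K.cp; have := K.cj
    exact Continuous.div (by fun_prop) (by fun_prop)
      fun z => (mul_pos (K.pos _) (K.jpos _ _)).ne'
  obtain ⟨C1, hC1⟩ := per2_bdd c1 fun u y k l => by
    simp only [K.dτ_int, K.q_int, K.p_int, K.j_int]
  have c2 : Continuous fun z : ℝ × ℝ => - Real.log (K.j z.1 z.2) :=
    (K.cj.log fun z => (K.jpos _ _).ne').neg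
  obtain ⟨C2, hC2⟩ := per2_bdd c2 fun u y k l => by simp only [K.j_int]
  obtain ⟨C3, hC3⟩ := K.log_bdd
  set ld : T × T → ℝ := fun z =>
    - Real.log (K.j (K.F (rep z.1, rep z.2)).1 (K.F (rep z.1, rep z.2)).2) with hld
  have m1 : Measurable ld := (c2.comp K.cF).measurable.comp
    ((rep_meas.comp measurable_fst).prodMk (rep_meas.comp measurable_snd))
  have i1 : Integrable ld := int_bdd m1 fun z => hC2 _
  have ed : ∀ z, ld (π z) = Real.log (K.j (K.F z).1 (K.F z).2)⁻¹ := by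
    intro z
    obtain ⟨a, ha⟩ := rep_coe z.1
    obtain ⟨l, hl⟩ := rep_coe z.2
    simp only [hld, π, ha, hl, K.F_int, K.j_int, Real.log_inv]
  have e1 : ∫ z : T × T, K.la z.1 = K.lam := by
    rw [← K.int_la]; exact (integral_fun_fst K.la).trans (by simp)
  have i2 : Integrable fun z : T × T => K.la z.1 := K.la_int.comp_fst _
  have e2 : (∫ z : T × T, K.la z.1) + ∫ z, ld z = K.ent := by
    rw [← integral_add i2 i1, intTT (ψ := fun z => K.la z.1 + ld z)
      ((K.la_meas.comp measurable_fst).add m1) (C := C3 + C2)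
      fun z => (abs_add_le _ _).trans (add_le_add (hC3 _) (hC2 _))]
    have e3 : ∀ x y : ℝ, K.la (π (x, y)).1 + ld (π (x, y)) =
        (fun z : ℝ × ℝ => - Real.log (K.p z.1) + - Real.log (K.j z.1 z.2)) (K.F (x, y)) := by
      intro x y
      rw [ed]
      simp only [π, K.la_coe, Real.log_inv]
      rfl
    simp only [e3]
    rw [K.cv2 (φ := fun z : ℝ × ℝ => - Real.log (K.p z.1) + - Real.log (K.j z.1 z.2))
      ((K.clog.comp continuous_fst).add c2).measurable (C := C3 + C2)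
      fun z => (abs_add_le _ _).trans (add_le_add (hC3 _) (hC2 _)), ent]
    congr 1
    ext u
    congr 1
    ext y
    simp only [← neg_add, ← Real.log_mul (K.pos _).ne' (K.jpos _ _).ne', K.pj]
    rw [K.Jper, Real.binEntropy, Real.log_inv, Real.log_inv]
  have := exps K.F_sm.2 (fun z => inv_pos.2 (K.pos _))
    (fun z => inv_pos.2 (K.jpos _ _)) (fun z => hC1 (K.F z)) K.f_π i2 i1
    (fun z => K.la_coe _) ed he (by linarith)
  rwa [show ∫ z, ld z = K.ent - K.lam by linarith, e1] at this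

theorem det_ne (z : ℝ × ℝ) : (fderiv ℝ K.F z).det ≠ 0 := by
  rw [(K.F_sm.2 z).fderiv, M_det]
  exact (mul_pos (inv_pos.2 (K.pos _)) (inv_pos.2 (K.jpos _ _))).ne'

theorem k0 (u : ℝ) : K.k u 0 = 0 := by simpa [K.h0] using K.kh u 0

theorem not_inj : ¬ Function.Injective K.f := by
  intro h
  have h1 : K.f (π (K.G 1, 0)) = K.f (π (K.G 0, 0)) := by
    rw [K.f_π, K.f_π]
    simp only [F, π, K.EG, K.k0]
    rw [show ((1 : ℝ) : T) = ((0 : ℝ) : T) from by simpa using coe_int 0 1]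
  have h2 := congrArg (fun z => rep z.1) (h h1)
  have a1 : K.G 0 < K.G 1 := K.Gmono zero_lt_one
  have a2 : K.G 1 < K.G 2 := K.Gmono one_lt_two
  rw [K.G0] at a1
  rw [K.G2] at a2
  simp only [π] at h2
  rw [rep_id ⟨a1.le, a2⟩, K.G0, rep_id ⟨le_rfl, zero_lt_one⟩] at h2
  linarith

theorem not_erg {y : ℝ} (hy : y ∈ Ioo (0 : ℝ) 1) (hq : K.q y = 0) : ¬ Ergodic K.f volume := by
  intro h
  have hm : MeasurableSet {z : T × T | rep z.2 < y} :=
    measurableSet_lt (rep_meas.comp measurable_snd) measurable_const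
  have hi : K.f ⁻¹' {z : T × T | rep z.2 < y} = {z : T × T | rep z.2 < y} := by
    ext z
    have h1 := rep_mem z.2
    have hm := K.hmono (K.E (rep z.1))
    have h2 : K.k (K.E (rep z.1)) (rep z.2) ∈ Ico (0 : ℝ) 1 :=
      ⟨hm.le_iff_le.1 (by rw [K.h0, K.hk]; exact h1.1),
        hm.lt_iff_lt.1 (by rw [K.h1, K.hk]; exact h1.2)⟩
    simp only [mem_preimage, mem_setOf_eq, f, π, F]
    rw [rep_id h2, ← hm.lt_iff_lt, K.hk, Sk0.h, hq, mul_zero, add_zero]
  have q1 : Measure.QuasiMeasurePreserving π volume volume :=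
    MeasureTheory.QuasiMeasurePreserving.prodMap qmp_coe qmp_coe
  have key : ∀ (a b : ℝ) (P : ℝ × ℝ → Prop), a < b → (∀ᵐ z, P z) → ∃ z, z.2 ∈ Ioo a b ∧ P z := by
    intro a b P hab hP
    have ho : IsOpen {z : ℝ × ℝ | z.2 ∈ Ioo a b} := isOpen_Ioo.preimage continuous_snd
    obtain ⟨z, h1, h2⟩ := (Measure.dense_of_ae hP).inter_open_nonempty _ ho
      ⟨(0, (a + b) / 2), by constructor <;> simp <;> linarith⟩
    exact ⟨z, h1, h2⟩
  rcases eventuallyConst_set.1 (h.aeconst_set hm hi) with h1 | h1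
  · obtain ⟨z, a, b⟩ := key y 1 _ hy.2 (q1.ae h1)
    simp only [π, mem_setOf_eq] at b
    rw [rep_id ⟨by linarith [a.1, hy.1], a.2⟩] at b
    linarith [a.1]
  · obtain ⟨z, a, b⟩ := key 0 y _ hy.1 (q1.ae h1)
    simp only [π, mem_setOf_eq] at b
    rw [rep_id ⟨a.1.le, by linarith [a.2, hy.2]⟩] at b
    exact b a.2

end Sk0

noncomputable def sn (y : ℝ) : ℝ := Real.sin (2 * Real.pi * y)
noncomputable def cs (y : ℝ) : ℝ := 2 * Real.pi * Real.cos (2 * Real.pi * y)

theorem hsn (y : ℝ) : HasDerivAt sn (cs y) y := by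
  have := ((hasDerivAt_id y).const_mul (2 * Real.pi)).sin
  exact this.congr_deriv (by simp [cs, mul_comm])

theorem sn_int (y : ℝ) (l : ℤ) : sn (y + l) = sn y := by
  rw [sn, sn, mul_add, mul_comm _ (l : ℝ), Real.sin_add_int_mul_two_pi]

theorem cs_int (y : ℝ) (l : ℤ) : cs (y + l) = cs y := by
  rw [cs, cs, mul_add, mul_comm _ (l : ℝ), Real.cos_add_int_mul_two_pi]

theorem tube {Φ : (ℝ × ℝ) × (ℝ × ℝ) → ℝ} (hc : ∀ w, ContinuousAt Φ (0, w))
    (h0 : ∀ w, Φ (0, w) = 0)
    (hp : ∀ (x : ℝ × ℝ) (u y : ℝ) (k l : ℤ), Φ (x, (u + 2 * k, y + l)) = Φ (x, (u, y)))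
    {ε : ℝ} (hε : 0 < ε) : ∀ᶠ x in 𝓝 (0 : ℝ × ℝ), ∀ w, |Φ (x, w)| < ε := by
  have := ((isCompact_Icc (a := (0 : ℝ)) (b := 2)).prod
    (isCompact_Icc (a := (0 : ℝ)) (b := 1))).eventually_forall_of_forall_eventually
    (x₀ := (0 : ℝ × ℝ)) (P := fun x w => |Φ (x, w)| < ε) (fun w _ =>
      (hc w).abs.eventually (gt_mem_nhds (by simpa [h0] using hε)))
  filter_upwards [this] with x hx z
  have := hp x z.1 z.2 (-⌊z.1 / 2⌋) (-⌊z.2⌋)
  rw [show Φ (x, z) = Φ (x, (z.1, z.2)) from rfl, ← this]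
  refine hx _ ⟨⟨?_, ?_⟩, ?_, ?_⟩ <;> push_cast
  · linarith [Int.floor_le (z.1 / 2)]
  · linarith [Int.lt_floor_add_one (z.1 / 2)]
  · linarith [Int.floor_le z.2]
  · linarith [Int.lt_floor_add_one z.2]

theorem Sk.pert (K : Sk) {ε : ℝ} (hε : 0 < ε) : ∃ K' : Sk0,
    (∀ z, ‖K'.F z - K.F z‖ < ε ∧ ‖fderiv ℝ K'.F z - fderiv ℝ K.F z‖ < ε) ∧
      ∃ y ∈ Ioo (0 : ℝ) 1, K'.q y = 0 := by
  have cτ := K.cτ
  have cdτ := K.cdτ
  have cq := K.cq
  have cp := K.cp
  have cdq := K.cdq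
  have csn : Continuous sn := by unfold sn; fun_prop
  have ccs : Continuous cs := by unfold cs; fun_prop
  obtain ⟨C1, hC1⟩ := per2_bdd (φ := fun z => (K.j z.1 z.2)⁻¹)
    (K.cj.inv₀ fun z => (K.jpos _ _).ne') fun u y k l => by
    simp only [K.j_int]
  obtain ⟨C2, hC2⟩ := per2_bdd (φ := fun z => K.τ z.1) (by fun_prop) fun u y k l => by
    simp only [K.τ_int]
  have c1 : 0 < C1 := (abs_pos.2 (inv_pos.2 (K.jpos 0 0)).ne').trans_le (hC1 (0, 0))
  have c2 : 0 ≤ C2 := (abs_nonneg _).trans (hC2 0)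
  have hj : ∀ u y, C1⁻¹ ≤ K.j u y := fun u y => by
    have := hC1 (u, y)
    rw [abs_of_pos (inv_pos.2 (K.jpos _ _))] at this
    exact inv_le_of_inv_le₀ (K.jpos _ _) this
  let jj : ℝ → ℝ → ℝ → ℝ := fun δ u y => 1 + K.τ u * (deriv K.q y - δ * cs y)
  have t1 := tube (Φ := fun x => (jj x.1.1 x.2.1 (x.2.2 + x.1.2))⁻¹ - (jj 0 x.2.1 x.2.2)⁻¹)
    (fun w => by
      have := (K.jpos w.1 w.2).ne'
      refine ContinuousAt.sub (ContinuousAt.inv₀ (by fun_prop) ?_) (ContinuousAt.inv₀ (by fun_prop) ?_)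
        <;> simpa [jj, Sk0.j] using this)
    (fun w => by simp) (fun x u y k l => by
      simp only [jj, K.τ_int, add_right_comm y, K.dq_int, cs_int]) (half_pos hε)
  have t2 := tube (Φ := fun x =>
      -(deriv K.τ x.2.1 * (K.q (x.2.2 + x.1.2) - x.1.1 * sn (x.2.2 + x.1.2))) /
        (K.p x.2.1 * jj x.1.1 x.2.1 (x.2.2 + x.1.2)) -
      -(deriv K.τ x.2.1 * K.q x.2.2) / (K.p x.2.1 * jj 0 x.2.1 x.2.2))
    (fun w => by
      have := (mul_pos (K.pos w.1) (K.jpos w.1 w.2)).ne'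
      refine ContinuousAt.sub (ContinuousAt.div (by fun_prop) (by fun_prop) ?_)
        (ContinuousAt.div (by fun_prop) (by fun_prop) ?_) <;> simpa [jj, Sk0.j] using this)
    (fun w => by simp) (fun x u y k l => by
      simp only [jj, K.τ_int, K.dτ_int, K.p_int, add_right_comm y, K.dq_int, K.q_int, cs_int,
        sn_int]) (half_pos hε)
  have t3 := tube (Φ := fun x => jj x.1.1 x.2.1 x.2.2 - jj 0 x.2.1 x.2.2)
    (fun w => by fun_prop) (fun w => by simp) (fun x u y k l => by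
      simp only [jj, K.τ_int, K.dq_int, cs_int]) (inv_pos.2 c1)
  obtain ⟨η, hη, hb⟩ := Metric.eventually_nhds_iff.1 ((t1.and t2).and t3)
  set δ := min η ε / 2 / (1 + C1 * C2) with hδ
  have m0 : 0 < min η ε := lt_min hη hε
  have d0 : 0 < δ := by positivity
  have d1 : δ * (1 + C1 * C2) < min η ε := by
    rw [hδ, div_mul_cancel₀ _ (by positivity)]; linarith
  have d2 : 0 ≤ δ * (C1 * C2) := by positivity
  have d3 : δ < η := by nlinarith [min_le_left η ε]
  have hb' : ∀ t, |t| < η → _ := fun t ht => hb (y := (δ, t)) (by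
    rw [Prod.dist_eq, Real.dist_eq, Real.dist_eq]
    simpa [abs_of_pos d0] using ⟨d3, ht⟩)
  have dq : ∀ y, deriv (fun y => K.q y - δ * sn y) y = deriv K.q y - δ * cs y := fun y =>
    ((K.hq y).sub ((hsn y).const_mul δ)).deriv
  have jp : ∀ u y, 0 < jj δ u y := fun u y => by
    have h1 := (abs_lt.1 ((hb' 0 (by simpa using hη)).2 (u, y))).1
    have h2 := hj u y
    simp only [jj, Sk0.j, zero_mul, sub_zero] at h1 h2 ⊢
    linarith
  have qs := K.qs
  let K' : Sk0 :=
    { K.toBr with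
      σ := K.σ
      q := fun y => K.q y - δ * sn y
      σs := K.σs
      qs := by unfold sn; fun_prop
      σper := K.σper
      qper := fun y => by
        have := sn_int y 1
        push_cast at this
        rw [K.qper, this]
      q0 := by simp [K.q0, sn]
      Jpos := fun u y => by
        have h1 := mul_pos (K.pos u) (jp u y)
        have h2 := (K.pos u).ne'
        rw [dq]
        refine h1.trans_eq ?_
        simp only [jj, Sk0.τ]
        field_simp }
  have ej : ∀ u y, K'.j u y = jj δ u y := fun u y => by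
    simp only [Sk0.j, jj]; rw [← dq]; rfl
  refine ⟨K', fun z => ?_, ?_⟩
  · set u := K.E z.1 with hu
    have e1 : K'.F z = (u, K'.k u z.2) := rfl
    have e2 : K.F z = (u, K.k u z.2) := rfl
    have e3 := K'.hk u z.2
    have e4 := K.hk u z.2
    have e5 : K.h u (K'.k u z.2) - K.h u (K.k u z.2) = K.τ u * δ * sn (K'.k u z.2) := by
      have e7 : ∀ t, K'.h u t = t + K.τ u * (K.q t - δ * sn t) := fun t => rfl
      rw [e7] at e3
      rw [e4, Sk0.h]
      linarith
    have f1 := (K'.F_sm.2 z).fderiv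
    have f2 := (K.F_sm.2 z).fderiv
    rw [e1] at f1
    rw [e2] at f2
    rw [e1, e2, f1, f2]
    generalize K'.k u z.2 = y' at e5
    generalize K.k u z.2 = y at e5
    have mv : ∀ a b, a ≤ b → C1⁻¹ * (b - a) ≤ K.h u b - K.h u a := fun a b hab =>
      mul_sub_le_image_sub_of_le_deriv (fun x => (K.hh u x).differentiableAt)
        (fun x => by rw [(K.hh u x).deriv]; exact hj u x) hab
    have b1 : |K.τ u * δ * sn y'| ≤ C2 * δ := by
      rw [abs_mul, abs_mul, abs_of_pos d0]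
      exact (mul_le_of_le_one_right (by positivity) (Real.abs_sin_le_one _)).trans
        (mul_le_mul_of_nonneg_right (hC2 (u, 0)) d0.le)
    have b2 : |y' - y| ≤ δ * (C1 * C2) := by
      have b3 : C1⁻¹ * |y' - y| ≤ C2 * δ := by
        rw [← e5] at b1
        rcases le_total y y' with h | h
        · rw [abs_of_nonneg (by linarith)]; linarith [mv y y' h, (abs_le.1 b1).2]
        · rw [abs_of_nonpos (by linarith), neg_sub]; linarith [mv y' y h, (abs_le.1 b1).1]
      rw [inv_mul_le_iff₀ c1] at b3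
      linarith
    have b4 : |y' - y| < min η ε := by nlinarith
    obtain ⟨⟨g1, g2⟩, -⟩ := hb' (y' - y) (b4.trans_le (min_le_left _ _))
    have g3 := g1 (u, y)
    have g4 := g2 (u, y)
    simp only [add_sub_cancel] at g3 g4
    constructor
    · simpa [Prod.norm_def] using b4.trans_le (min_le_right _ _)
    · have e6 : K.j u y = jj 0 u y := by simp [jj, Sk0.j]
      simp only [ej, e6]
      erw [M_sub]
      refine (M_up _ _ _).trans_lt ?_
      rw [abs_zero, zero_add]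
      exact (add_lt_add g4 g3).trans_eq (add_halves ε)
  · have q0 : deriv K.q 0 = 0 := by
      refine IsLocalMin.deriv_eq_zero (Eventually.of_forall fun y => ?_)
      have h1 := K.q_int (Int.fract y) ⌊y⌋
      rw [Int.fract_add_floor] at h1
      rw [K.q0, h1]
      rcases (Int.fract_nonneg y).eq_or_lt with h | h
      · rw [← h, K.q0]
      · exact (K.qpos _ ⟨h, Int.fract_lt_one y⟩).le
    have h1 : HasDerivAt K'.q (-(δ * (2 * Real.pi))) 0 :=
      ((K.hq 0).sub ((hsn 0).const_mul δ)).congr_deriv (by simp [q0, cs])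
    have h2 := hasDerivAt_iff_tendsto_slope_zero.1 h1
    have h3 : ∀ᶠ t in 𝓝[>] (0 : ℝ), t⁻¹ • (K'.q (0 + t) - K'.q 0) < 0 :=
      (h2.mono_left (nhdsWithin_mono _ fun t ht => ne_of_gt ht)).eventually
        (gt_mem_nhds (by have := Real.pi_pos; simp; positivity))
    obtain ⟨t, ht1, ht2⟩ := (h3.and (Ioo_mem_nhdsGT (show (0 : ℝ) < 1 / 2 by norm_num))).exists
    rw [K'.q0, zero_add, sub_zero, smul_eq_mul] at ht1
    have h4 : K'.q t < 0 := by
      by_contra h
      exact absurd ht1 (not_lt.2 (mul_nonneg (inv_pos.2 ht2.1).le (not_lt.1 h)))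
    have h5 : 0 < K'.q (1 / 2) := by
      have := K.qpos (1 / 2) ⟨by norm_num, by norm_num⟩
      have e : sn (1 / 2) = 0 := by
        rw [sn, show 2 * Real.pi * (1 / 2) = Real.pi by ring, Real.sin_pi]
      show 0 < K.q (1 / 2) - δ * sn (1 / 2)
      rw [e]; linarith
    obtain ⟨y, hy, e⟩ := intermediate_value_Icc ht2.2.le K'.cq.continuousOn ⟨h4.le, h5.le⟩
    exact ⟨y, ⟨by linarith [hy.1, ht2.1], by linarith [hy.2]⟩, e⟩

end Pool.Agent.H.Flex
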